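import Pool.Agent.Lib.LU2_h15.Defs

/-!
# The projective line with finitely many comparable sections: the local charts

`A` is a local ring dominated by `V` in a field `F`, `S` a finite additive group of elements of `F`
whose nonzero elements are pairwise comparable for divisibility in `A`, and `z ∈ F`.
The local ring at the centre of `V` of the join of all `⟨z - s, s'⟩` is computed.
-/

set_option autoImplicit false

namespace Pool.Agent.TGE

open Pool.Agent.LU2

universe u

section Loc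

variable {k F : Type u} [Field k] [Field F] [Algebra k F] {V : ValuationSubring F}

theorem le_locV (A : Subalgebra k F) : A ≤ locV V A := fun a ha =>
  ⟨a, ha, 1, A.one_mem, map_one _, by rw [div_one]⟩

theorem locV_mono {A B : Subalgebra k F} (h : A ≤ B) : locV V A ≤ locV V B := by
  rintro f ⟨a, ha, b, hb, hv, rfl⟩
  exact ⟨a, h ha, b, h hb, hv, rfl⟩

theorem locV_inv {A : Subalgebra k F} {f : F} (hf : f ∈ locV V A) (hv : V.valuation f = 1) :
    f⁻¹ ∈ locV V A := by
  obtain ⟨a, ha, b, hb, hvb, rfl⟩ := hf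
  rw [map_div₀, hvb, div_one] at hv
  exact ⟨b, hb, a, ha, hv, by rw [inv_div]⟩

theorem locV_val {A : Subalgebra k F} (hA : ∀ a ∈ A, a ∈ V) {f : F} (hf : f ∈ locV V A) :
    V.valuation f ≤ 1 := by
  obtain ⟨a, ha, b, hb, hvb, rfl⟩ := hf
  rw [map_div₀, hvb, div_one]
  exact (V.valuation_le_one_iff a).2 (hA a ha)

theorem locV_le {A B : Subalgebra k F} (h : A ≤ locV V B) : locV V A ≤ locV V B := by
  rintro f ⟨a, ha, b, hb, hv, rfl⟩
  rw [div_eq_mul_inv]
  exact (locV V B).mul_mem (h ha) (locV_inv (h hb) hv)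

theorem locV_locV (A : Subalgebra k F) : locV V (locV V A) = locV V A :=
  le_antisymm (locV_le le_rfl) (le_locV _)

theorem adjoin_le_locV {B : Subalgebra k F} {s : Set F} (h : ∀ x ∈ s, x ∈ locV V B) :
    locV V (Algebra.adjoin k s) ≤ locV V B :=
  locV_le (Algebra.adjoin_le h)

theorem mem_locV_adjoin {s : Set F} {x : F} (h : x ∈ s) : x ∈ locV V (Algebra.adjoin k s) :=
  le_locV _ (Algebra.subset_adjoin h)

theorem div_mem_of_locV {A : Subalgebra k F} {a b : F} (ha : a ∈ locV V A) (hb : b ∈ locV V A)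
    (hv : V.valuation b = 1) : a / b ∈ locV V A := by
  rw [div_eq_mul_inv]
  exact (locV V A).mul_mem ha (locV_inv hb hv)

end Loc

section Chart

variable {k F : Type u} [Field k] [Field F] [Algebra k F]

/-- The nonzero elements of `S` are pairwise comparable in `A`. -/
def Comp (A : Subalgebra k F) (S : AddSubgroup F) : Prop :=
  ∀ s ∈ S, ∀ t ∈ S, s ≠ 0 → t ≠ 0 → s / t ∈ A ∨ t / s ∈ A

/-- `A` is a local ring dominated by `V`. -/
structure Dom (V : ValuationSubring F) (A : Subalgebra k F) : Prop where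
  le : ∀ a ∈ A, a ∈ V
  inv : ∀ a ∈ A, V.valuation a = 1 → a⁻¹ ∈ A

theorem dom_locV {V : ValuationSubring F} {A : Subalgebra k F} (hA : ∀ a ∈ A, a ∈ V) :
    Dom V (locV V A) :=
  ⟨fun _ ha => (V.valuation_le_one_iff _).1 (locV_val hA ha), fun _ ha hv => locV_inv ha hv⟩

theorem Dom.locV_eq {V : ValuationSubring F} {A : Subalgebra k F} (hA : Dom V A) :
    locV V A = A := by
  apply le_antisymm _ (le_locV _)
  rintro f ⟨a, ha, b, hb, hv, rfl⟩
  rw [div_eq_mul_inv]
  exact A.mul_mem ha (hA.inv b hb hv)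

/-- The ratios `(z - s) / s'` and `s' / (z - s)` in `V`. -/
def ratios (V : ValuationSubring F) (S : AddSubgroup F) (z : F) : Set F :=
  {q | (∃ s ∈ S, ∃ s' ∈ S, s' ≠ 0 ∧ (q = (z - s) / s' ∨ q = s' / (z - s))) ∧ q ∈ V}

/-- The ratios `w / s'` and `s' / w` in `V`. -/
def ratios1 (V : ValuationSubring F) (S : AddSubgroup F) (w : F) : Set F :=
  {q | (∃ s' ∈ S, s' ≠ 0 ∧ (q = w / s' ∨ q = s' / w)) ∧ q ∈ V}

variable {V : ValuationSubring F} {A : Subalgebra k F} {S : AddSubgroup F} {z s0 : F}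

/-- The ratio of two elements of `S` is in `A` as soon as it is in `V`. -/
theorem div_mem_of_val (hA : Dom V A) (hS : Comp A S) {s t : F} (hs : s ∈ S) (ht : t ∈ S)
    (ht0 : t ≠ 0) (hv : V.valuation s ≤ V.valuation t) : s / t ∈ A := by
  rcases eq_or_ne s 0 with rfl | hs0
  · rw [zero_div]; exact A.zero_mem
  rcases hS s hs t ht hs0 ht0 with h | h
  · exact h
  · have h1 := (V.valuation_le_one_iff _).2 (hA.le _ h)
    rw [map_div₀] at h1
    have hvs : V.valuation s ≠ 0 := (map_ne_zero _).2 hs0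
    have hvt : V.valuation t ≠ 0 := (map_ne_zero _).2 ht0
    have h2 : V.valuation t ≤ V.valuation s := by
      rwa [div_le_one₀ (zero_lt_iff.2 hvs)] at h1
    have h3 : V.valuation (t / s) = 1 := by
      rw [map_div₀, le_antisymm h2 hv, div_self hvs]
    have h4 := hA.inv _ h h3
    rwa [inv_div] at h4

/-- Every `z - s` is `w` or an element of `S` times a unit. -/
theorem form (hs0 : s0 ∈ S) (hz : z - s0 ≠ 0)
    (hmax : ∀ s ∈ S, V.valuation (z - s0) ≤ V.valuation (z - s)) {s : F} (hs : s ∈ S) :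
    ∃ u ∈ locV V (Algebra.adjoin k ((A : Set F) ∪ ratios1 V S (z - s0))), V.valuation u = 1 ∧
      ((z - s = (z - s0) * u ∧ V.valuation (s0 - s) ≤ V.valuation (z - s0)) ∨
        (z - s = (s0 - s) * u ∧ V.valuation (z - s0) < V.valuation (s0 - s))) := by
  set w := z - s0 with hw
  have hvw : V.valuation w ≠ 0 := (map_ne_zero _).2 hz
  have hd : z - s = w + (s0 - s) := by rw [hw]; ring
  have hmem : s0 - s ∈ S := S.sub_mem hs0 hs
  rcases lt_or_ge (V.valuation w) (V.valuation (s0 - s)) with hlt | hge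
  · have hne : s0 - s ≠ 0 := by
      intro h0; rw [h0, map_zero] at hlt; exact absurd hlt (by simp)
    have hvd : V.valuation (s0 - s) ≠ 0 := (map_ne_zero _).2 hne
    have hval : V.valuation (w / (s0 - s)) < 1 := by
      rw [map_div₀, div_lt_one₀ (zero_lt_iff.2 hvd)]; exact hlt
    have hq : w / (s0 - s) ∈ ratios1 V S w :=
      ⟨⟨s0 - s, hmem, hne, Or.inl rfl⟩, (V.valuation_le_one_iff _).1 hval.le⟩
    refine ⟨1 + w / (s0 - s), ?_, Valuation.map_one_add_of_lt _ hval, Or.inr ⟨?_, hlt⟩⟩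
    · exact (locV V _).add_mem (locV V _).one_mem (mem_locV_adjoin (Or.inr hq))
    · rw [hd]; field_simp; ring
  · refine ⟨1 + (s0 - s) / w, ?_, ?_, Or.inl ⟨?_, hge⟩⟩
    · rcases eq_or_ne (s0 - s) 0 with h0 | hne
      · rw [h0, zero_div, add_zero]; exact (locV V _).one_mem
      · refine (locV V _).add_mem (locV V _).one_mem (mem_locV_adjoin (Or.inr ?_))
        refine ⟨⟨s0 - s, hmem, hne, Or.inr rfl⟩, (V.valuation_le_one_iff _).1 ?_⟩
        rw [map_div₀, div_le_one₀ (zero_lt_iff.2 hvw)]; exact hge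
    · have h1 : V.valuation (z - s) = V.valuation w := by
        apply le_antisymm _ (hmax s hs)
        rw [hd]
        exact (V.valuation.map_add _ _).trans (max_le le_rfl hge)
      have h2 : 1 + (s0 - s) / w = (z - s) / w := by rw [hd]; field_simp
      rw [h2, map_div₀, h1, div_self hvw]
    · rw [hd]; field_simp

/-- Only the ratios of `w = z - s0` are needed. -/
theorem locV_ratios (hA : Dom V A) (hS : Comp A S) (hs0 : s0 ∈ S) (hz : z - s0 ≠ 0)
    (hmax : ∀ s ∈ S, V.valuation (z - s0) ≤ V.valuation (z - s)) :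
    locV V (Algebra.adjoin k ((A : Set F) ∪ ratios V S z)) =
      locV V (Algebra.adjoin k ((A : Set F) ∪ ratios1 V S (z - s0))) := by
  apply le_antisymm
  · apply adjoin_le_locV
    rintro q (hq | ⟨⟨s, hs, s', hs', hs'0, hq⟩, hqV⟩)
    · exact mem_locV_adjoin (Or.inl hq)
    obtain ⟨u, hu, hvu, h⟩ := form (A := A) hs0 hz hmax hs
    have hu0 : u ≠ 0 := by rintro rfl; simp at hvu
    have hqV' := (V.valuation_le_one_iff _).2 hqV
    have hvs' : V.valuation s' ≠ 0 := (map_ne_zero _).2 hs'0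
    rcases h with ⟨hzs, hle⟩ | ⟨hzs, hlt⟩
    · rcases hq with rfl | rfl
      · have e : (z - s) / s' = (z - s0) / s' * u := by rw [hzs]; ring
        rw [e] at hqV' ⊢
        rw [map_mul, hvu, mul_one] at hqV'
        exact (locV V _).mul_mem (mem_locV_adjoin (Or.inr
          ⟨⟨s', hs', hs'0, Or.inl rfl⟩, (V.valuation_le_one_iff _).1 hqV'⟩)) hu
      · have e : s' / (z - s) = s' / (z - s0) * u⁻¹ := by rw [hzs]; field_simp
        rw [e] at hqV' ⊢
        rw [map_mul, map_inv₀, hvu, inv_one, mul_one] at hqV'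
        exact (locV V _).mul_mem (mem_locV_adjoin (Or.inr
          ⟨⟨s', hs', hs'0, Or.inr rfl⟩, (V.valuation_le_one_iff _).1 hqV'⟩)) (locV_inv hu hvu)
    · have hne : s0 - s ≠ 0 := by
        intro h0; rw [h0, map_zero] at hlt; exact absurd hlt (by simp)
      have hmem : s0 - s ∈ S := S.sub_mem hs0 hs
      have hvd : V.valuation (s0 - s) ≠ 0 := (map_ne_zero _).2 hne
      rcases hq with rfl | rfl
      · have e : (z - s) / s' = (s0 - s) / s' * u := by rw [hzs]; ring
        rw [e] at hqV' ⊢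
        rw [map_mul, hvu, mul_one, map_div₀, div_le_one₀ (zero_lt_iff.2 hvs')] at hqV'
        exact (locV V _).mul_mem (mem_locV_adjoin (Or.inl
          (div_mem_of_val hA hS hmem hs' hs'0 hqV'))) hu
      · have e : s' / (z - s) = s' / (s0 - s) * u⁻¹ := by rw [hzs]; field_simp
        rw [e] at hqV' ⊢
        rw [map_mul, map_inv₀, hvu, inv_one, mul_one, map_div₀,
          div_le_one₀ (zero_lt_iff.2 hvd)] at hqV'
        exact (locV V _).mul_mem (mem_locV_adjoin (Or.inl
          (div_mem_of_val hA hS hs' hmem hne hqV'))) (locV_inv hu hvu)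
  · apply locV_mono
    apply Algebra.adjoin_mono
    apply Set.union_subset_union_right
    rintro q ⟨⟨s', hs', hs'0, hq⟩, hqV⟩
    exact ⟨⟨s0, hs0, s', hs', hs'0, hq⟩, hqV⟩

/-- Case (I): `w` has the value of an element `δ` of `S`. -/
theorem chartI (hA : Dom V A) (hS : Comp A S) {w δ : F} (hw : w ≠ 0) (hδ : δ ∈ S) (hδ0 : δ ≠ 0)
    (hv : V.valuation w = V.valuation δ) :
    locV V (Algebra.adjoin k ((A : Set F) ∪ ratios1 V S w)) =
      locV V (Algebra.adjoin k ((A : Set F) ∪ {w / δ})) := by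
  have hvw : V.valuation w ≠ 0 := (map_ne_zero _).2 hw
  have hvt : V.valuation (w / δ) = 1 := by rw [map_div₀, hv, div_self (hv ▸ hvw)]
  have ht : w / δ ∈ locV V (Algebra.adjoin k ((A : Set F) ∪ {w / δ})) :=
    mem_locV_adjoin (Or.inr rfl)
  apply le_antisymm
  · apply adjoin_le_locV
    rintro q (hq | ⟨⟨s', hs', hs'0, hq⟩, hqV⟩)
    · exact mem_locV_adjoin (Or.inl hq)
    have hqV' := (V.valuation_le_one_iff _).2 hqV
    have hvs' : V.valuation s' ≠ 0 := (map_ne_zero _).2 hs'0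
    rcases hq with rfl | rfl
    · have e : w / s' = (δ / s') * (w / δ) := by field_simp
      rw [e]
      rw [map_div₀, div_le_one₀ (zero_lt_iff.2 hvs'), hv] at hqV'
      exact (locV V _).mul_mem (mem_locV_adjoin (Or.inl
        (div_mem_of_val hA hS hδ hs' hs'0 hqV'))) ht
    · have e : s' / w = (s' / δ) * (w / δ)⁻¹ := by field_simp
      rw [e]
      rw [map_div₀, div_le_one₀ (zero_lt_iff.2 hvw), hv] at hqV'
      exact (locV V _).mul_mem (mem_locV_adjoin (Or.inl
        (div_mem_of_val hA hS hs' hδ hδ0 hqV'))) (locV_inv ht hvt)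
  · apply adjoin_le_locV
    rintro q (hq | rfl)
    · exact mem_locV_adjoin (Or.inl hq)
    · exact mem_locV_adjoin (Or.inr ⟨⟨δ, hδ, hδ0, Or.inl rfl⟩,
        (V.valuation_le_one_iff _).1 hvt.le⟩)

/-- Case (II): the value of `w` is strictly between the consecutive values of `δm` and `δp`. -/
theorem chartII (hA : Dom V A) (hS : Comp A S) {w δm δp : F} (hm : δm ∈ S) (hp : δp ∈ S)
    (hp0 : δp ≠ 0) (hvm : V.valuation w < V.valuation δm) (hvp : V.valuation δp < V.valuation w)
    (hc : ∀ s ∈ S, s ≠ 0 → V.valuation δm ≤ V.valuation s ∨ V.valuation s ≤ V.valuation δp) :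
    locV V (Algebra.adjoin k ((A : Set F) ∪ ratios1 V S w)) =
      locV V (Algebra.adjoin k ((A : Set F) ∪ {w / δm, δp / w})) := by
  have hvw : V.valuation w ≠ 0 := (zero_le.trans_lt hvp).ne'
  have hw : w ≠ 0 := (map_ne_zero _).1 hvw
  have hvm0 : V.valuation δm ≠ 0 := (zero_le.trans_lt hvm).ne'
  have hm0 : δm ≠ 0 := (map_ne_zero _).1 hvm0
  apply le_antisymm
  · apply adjoin_le_locV
    rintro q (hq | ⟨⟨s', hs', hs'0, hq⟩, hqV⟩)
    · exact mem_locV_adjoin (Or.inl hq)
    have hqV' := (V.valuation_le_one_iff _).2 hqV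
    have hvs' : V.valuation s' ≠ 0 := (map_ne_zero _).2 hs'0
    rcases hq with rfl | rfl
    · have e : w / s' = (δm / s') * (w / δm) := by field_simp
      rw [e]
      rw [map_div₀, div_le_one₀ (zero_lt_iff.2 hvs')] at hqV'
      have h1 : V.valuation δm ≤ V.valuation s' := by
        rcases hc s' hs' hs'0 with h | h
        · exact h
        · exact absurd (hqV'.trans h) (not_le.2 hvp)
      exact (locV V _).mul_mem (mem_locV_adjoin (Or.inl
        (div_mem_of_val hA hS hm hs' hs'0 h1))) (mem_locV_adjoin (Or.inr (Or.inl rfl)))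
    · have e : s' / w = (s' / δp) * (δp / w) := by field_simp
      rw [e]
      rw [map_div₀, div_le_one₀ (zero_lt_iff.2 hvw)] at hqV'
      have h1 : V.valuation s' ≤ V.valuation δp := by
        rcases hc s' hs' hs'0 with h | h
        · exact absurd (h.trans hqV') (not_le.2 hvm)
        · exact h
      exact (locV V _).mul_mem (mem_locV_adjoin (Or.inl
        (div_mem_of_val hA hS hs' hp hp0 h1))) (mem_locV_adjoin (Or.inr (Or.inr rfl)))
  · apply adjoin_le_locV
    rintro q (hq | rfl | rfl)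
    · exact mem_locV_adjoin (Or.inl hq)
    · refine mem_locV_adjoin (Or.inr ⟨⟨δm, hm, hm0, Or.inl rfl⟩,
        (V.valuation_le_one_iff _).1 ?_⟩)
      rw [map_div₀, div_le_one₀ (zero_lt_iff.2 hvm0)]; exact hvm.le
    · refine mem_locV_adjoin (Or.inr ⟨⟨δp, hp, hp0, Or.inr rfl⟩,
        (V.valuation_le_one_iff _).1 ?_⟩)
      rw [map_div₀, div_le_one₀ (zero_lt_iff.2 hvw)]; exact hvp.le

/-- Case (III): the value of `w` is above all values of nonzero elements of `S`. -/
theorem chartIII (hA : Dom V A) (hS : Comp A S) {w δm : F} (hw : w ≠ 0) (hm : δm ∈ S)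
    (hvm : V.valuation w < V.valuation δm)
    (hc : ∀ s ∈ S, s ≠ 0 → V.valuation δm ≤ V.valuation s) :
    locV V (Algebra.adjoin k ((A : Set F) ∪ ratios1 V S w)) =
      locV V (Algebra.adjoin k ((A : Set F) ∪ {w / δm})) := by
  have hvw : V.valuation w ≠ 0 := (map_ne_zero _).2 hw
  have hvm0 : V.valuation δm ≠ 0 := (zero_le.trans_lt hvm).ne'
  have hm0 : δm ≠ 0 := (map_ne_zero _).1 hvm0
  apply le_antisymm
  · apply adjoin_le_locV
    rintro q (hq | ⟨⟨s', hs', hs'0, hq⟩, hqV⟩)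
    · exact mem_locV_adjoin (Or.inl hq)
    have hqV' := (V.valuation_le_one_iff _).2 hqV
    rcases hq with rfl | rfl
    · have e : w / s' = (δm / s') * (w / δm) := by field_simp
      rw [e]
      exact (locV V _).mul_mem (mem_locV_adjoin (Or.inl
        (div_mem_of_val hA hS hm hs' hs'0 (hc s' hs' hs'0))))
        (mem_locV_adjoin (Or.inr rfl))
    · rw [map_div₀, div_le_one₀ (zero_lt_iff.2 hvw)] at hqV'
      exact absurd ((hc s' hs' hs'0).trans hqV') (not_le.2 hvm)
  · apply adjoin_le_locV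
    rintro q (hq | rfl)
    · exact mem_locV_adjoin (Or.inl hq)
    · refine mem_locV_adjoin (Or.inr ⟨⟨δm, hm, hm0, Or.inl rfl⟩,
        (V.valuation_le_one_iff _).1 ?_⟩)
      rw [map_div₀, div_le_one₀ (zero_lt_iff.2 hvm0)]; exact hvm.le

/-- Case (IV): the value of `w` is below all values of elements of `S`. -/
theorem chartIV (hA : Dom V A) (hS : Comp A S) {w δp : F} (hp : δp ∈ S)
    (hp0 : δp ≠ 0) (hvp : V.valuation δp < V.valuation w)
    (hc : ∀ s ∈ S, s ≠ 0 → V.valuation s ≤ V.valuation δp) :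
    locV V (Algebra.adjoin k ((A : Set F) ∪ ratios1 V S w)) =
      locV V (Algebra.adjoin k ((A : Set F) ∪ {δp / w})) := by
  have hvw : V.valuation w ≠ 0 := (zero_le.trans_lt hvp).ne'
  have hw : w ≠ 0 := (map_ne_zero _).1 hvw
  apply le_antisymm
  · apply adjoin_le_locV
    rintro q (hq | ⟨⟨s', hs', hs'0, hq⟩, hqV⟩)
    · exact mem_locV_adjoin (Or.inl hq)
    have hqV' := (V.valuation_le_one_iff _).2 hqV
    have hvs' : V.valuation s' ≠ 0 := (map_ne_zero _).2 hs'0
    rcases hq with rfl | rfl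
    · rw [map_div₀, div_le_one₀ (zero_lt_iff.2 hvs')] at hqV'
      exact absurd (hqV'.trans (hc s' hs' hs'0)) (not_le.2 hvp)
    · have e : s' / w = (s' / δp) * (δp / w) := by field_simp
      rw [e]
      exact (locV V _).mul_mem (mem_locV_adjoin (Or.inl
        (div_mem_of_val hA hS hs' hp hp0 (hc s' hs' hs'0)))) (mem_locV_adjoin (Or.inr rfl))
  · apply adjoin_le_locV
    rintro q (hq | rfl)
    · exact mem_locV_adjoin (Or.inl hq)
    · refine mem_locV_adjoin (Or.inr ⟨⟨δp, hp, hp0, Or.inr rfl⟩,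
        (V.valuation_le_one_iff _).1 ?_⟩)
      rw [map_div₀, div_le_one₀ (zero_lt_iff.2 hvw)]; exact hvp.le

/-- The four cases. -/
theorem cases (hfin : (S : Set F).Finite) {w : F} (hne : ∃ s ∈ S, s ≠ 0) :
    (∃ δ ∈ S, δ ≠ 0 ∧ V.valuation w = V.valuation δ) ∨
    (∃ δm ∈ S, ∃ δp ∈ S, δm ≠ 0 ∧ δp ≠ 0 ∧ V.valuation w < V.valuation δm ∧
      V.valuation δp < V.valuation w ∧
      ∀ s ∈ S, s ≠ 0 → V.valuation δm ≤ V.valuation s ∨ V.valuation s ≤ V.valuation δp) ∨
    (∃ δm ∈ S, δm ≠ 0 ∧ V.valuation w < V.valuation δm ∧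
      ∀ s ∈ S, s ≠ 0 → V.valuation δm ≤ V.valuation s) ∨
    (∃ δp ∈ S, δp ≠ 0 ∧ V.valuation δp < V.valuation w ∧
      ∀ s ∈ S, s ≠ 0 → V.valuation s ≤ V.valuation δp) := by
  classical
  by_cases h0 : ∃ δ ∈ S, δ ≠ 0 ∧ V.valuation w = V.valuation δ
  · exact Or.inl h0
  right
  push Not at h0
  set T : Finset F := hfin.toFinset with hT
  have hmemT : ∀ x, x ∈ T ↔ x ∈ S := fun x => by simp [hT]
  set Tm := T.filter fun s => s ≠ 0 ∧ V.valuation w < V.valuation s with hTm
  set Tp := T.filter fun s => s ≠ 0 ∧ V.valuation s < V.valuation w with hTp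
  have htri : ∀ s ∈ S, s ≠ 0 → s ∈ Tm ∨ s ∈ Tp := by
    intro s hs hs0
    rcases lt_trichotomy (V.valuation w) (V.valuation s) with h | h | h
    · left; simp only [hTm, Finset.mem_filter, hmemT]; exact ⟨hs, hs0, h⟩
    · exact absurd h (h0 s hs hs0)
    · right; simp only [hTp, Finset.mem_filter, hmemT]; exact ⟨hs, hs0, h⟩
  have hm : Tm.Nonempty → ∃ δm ∈ S, δm ≠ 0 ∧ V.valuation w < V.valuation δm ∧
      ∀ s ∈ Tm, V.valuation δm ≤ V.valuation s := by
    intro h
    obtain ⟨δ, hδ, hmin⟩ := Tm.exists_min_image (fun s => V.valuation s) h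
    simp only [hTm, Finset.mem_filter, hmemT] at hδ
    exact ⟨δ, hδ.1, hδ.2.1, hδ.2.2, hmin⟩
  have hp : Tp.Nonempty → ∃ δp ∈ S, δp ≠ 0 ∧ V.valuation δp < V.valuation w ∧
      ∀ s ∈ Tp, V.valuation s ≤ V.valuation δp := by
    intro h
    obtain ⟨δ, hδ, hmax⟩ := Tp.exists_max_image (fun s => V.valuation s) h
    simp only [hTp, Finset.mem_filter, hmemT] at hδ
    exact ⟨δ, hδ.1, hδ.2.1, hδ.2.2, hmax⟩
  by_cases h1 : Tm.Nonempty
  · obtain ⟨δm, hδm, hδm0, hvm, hminm⟩ := hm h1
    by_cases h2 : Tp.Nonempty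
    · obtain ⟨δp, hδp, hδp0, hvp, hmaxp⟩ := hp h2
      refine Or.inl ⟨δm, hδm, δp, hδp, hδm0, hδp0, hvm, hvp, fun s hs hs0 => ?_⟩
      rcases htri s hs hs0 with h | h
      · exact Or.inl (hminm s h)
      · exact Or.inr (hmaxp s h)
    · refine Or.inr (Or.inl ⟨δm, hδm, hδm0, hvm, fun s hs hs0 => ?_⟩)
      rcases htri s hs hs0 with h | h
      · exact hminm s h
      · exact absurd ⟨s, h⟩ h2
  · obtain ⟨s1, hs1, hs10⟩ := hne
    have h2 : Tp.Nonempty := by
      rcases htri s1 hs1 hs10 with h | h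
      · exact absurd ⟨s1, h⟩ h1
      · exact ⟨s1, h⟩
    obtain ⟨δp, hδp, hδp0, hvp, hmaxp⟩ := hp h2
    refine Or.inr (Or.inr ⟨δp, hδp, hδp0, hvp, fun s hs hs0 => ?_⟩)
    rcases htri s hs hs0 with h | h
    · exact absurd ⟨s, h⟩ h1
    · exact hmaxp s h

end Chart

end Pool.Agent.TGE
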