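import Pool.Agent.Lib.TGE_h70.Norm

/-!
# The projective line with finitely many comparable sections: maximal ideals, intersection with the
constant field, monomials
-/

set_option autoImplicit false

namespace Pool.Agent.TGE

open Pool.Agent.LU2 Polynomial

universe u

section Gen

variable {k F : Type u} [Field k] [Field F] [Algebra k F]

variable (k) in
/-- The residue field of `V` is `k`. -/
def Res (V : ValuationSubring F) : Prop :=
  ∀ x ∈ V, ∃ c : k, V.valuation (x - algebraMap k F c) < 1

/-- The elements of positive value of `A` are in the ideal generated by `E`. -/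
def GenBy (V : ValuationSubring F) (A : Subalgebra k F) (E : Set F) : Prop :=
  (∀ e ∈ E, e ∈ A ∧ V.valuation e < 1) ∧
    ∀ f ∈ A, V.valuation f < 1 → f ∈ Submodule.span A E

variable {V : ValuationSubring F}

theorem span_mono_ring {A B : Subalgebra k F} (h : A ≤ B) (E : Set F) {f : F}
    (hf : f ∈ Submodule.span A E) : f ∈ Submodule.span B E := by
  induction hf using Submodule.span_induction with
  | mem x hx => exact Submodule.subset_span hx
  | zero => exact Submodule.zero_mem _
  | add x y _ _ hx hy => exact Submodule.add_mem _ hx hy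
  | smul a x _ hx => exact Submodule.smul_mem _ (⟨a.1, h a.2⟩ : B) hx

theorem span_val {A : Subalgebra k F} (hA : ∀ a ∈ A, a ∈ V) {E : Set F}
    (hE : ∀ e ∈ E, V.valuation e < 1) {f : F} (hf : f ∈ Submodule.span A E) :
    V.valuation f < 1 := by
  induction hf using Submodule.span_induction with
  | mem x hx => exact hE x hx
  | zero => simp
  | add x y _ _ hx hy => exact (V.valuation.map_add x y).trans_lt (max_lt hx hy)
  | smul a x _ hx =>
    rw [Algebra.smul_def, map_mul]
    have h1 : V.valuation (algebraMap A F a) ≤ 1 := (V.valuation_le_one_iff _).2 (hA a a.2)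
    exact (mul_le_of_le_one_left' h1).trans_lt hx

theorem const_val (hk : ∀ c : k, algebraMap k F c ∈ V) {c : k}
    (h : V.valuation (algebraMap k F c) < 1) : c = 0 := by
  by_contra hc
  have h1 : V.valuation (algebraMap k F c⁻¹) ≤ 1 := (V.valuation_le_one_iff _).2 (hk _)
  have h2 : V.valuation (algebraMap k F c * algebraMap k F c⁻¹) < 1 := by
    rw [map_mul]
    exact (mul_le_of_le_one_right' h1).trans_lt h
  rw [← map_mul, mul_inv_cancel₀ hc, map_one, map_one] at h2
  exact lt_irrefl _ h2

/-- Elements of `A[G]` are constants modulo the ideal generated by `E` and the `g - c g`. -/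
theorem const_mod {A : Subalgebra k F} (hres : Res k V) (hA : Dom V A) {E : Set F}
    (hE : GenBy V A E) (G : Set F) (c : F → k) {f : F}
    (hf : f ∈ Algebra.adjoin k ((A : Set F) ∪ G)) :
    ∃ a : k, f - algebraMap k F a ∈
      Submodule.span (Algebra.adjoin k ((A : Set F) ∪ G))
        (E ∪ (fun g => g - algebraMap k F (c g)) '' G) := by
  have hAB : A ≤ Algebra.adjoin k ((A : Set F) ∪ G) := fun a ha => Algebra.subset_adjoin (Or.inl ha)
  induction hf using Algebra.adjoin_induction with
  | mem y hy =>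
    rcases hy with hy | hy
    · obtain ⟨a, ha⟩ := hres y (hA.le y hy)
      refine ⟨a, ?_⟩
      have h1 := hE.2 _ (A.sub_mem hy (A.algebraMap_mem a)) ha
      exact Submodule.span_mono Set.subset_union_left (span_mono_ring hAB _ h1)
    · exact ⟨c y, Submodule.subset_span (Or.inr ⟨y, hy, rfl⟩)⟩
  | algebraMap a => exact ⟨a, by rw [sub_self]; exact Submodule.zero_mem _⟩
  | add x y _ _ hx hy =>
    obtain ⟨a, ha⟩ := hx; obtain ⟨b, hb⟩ := hy
    refine ⟨a + b, ?_⟩
    have e : x + y - algebraMap k F (a + b) = (x - algebraMap k F a) + (y - algebraMap k F b) := by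
      rw [map_add]; ring
    rw [e]
    exact Submodule.add_mem _ ha hb
  | mul x y hx' hy' hx hy =>
    obtain ⟨a, ha⟩ := hx; obtain ⟨b, hb⟩ := hy
    refine ⟨a * b, ?_⟩
    have e : x * y - algebraMap k F (a * b) =
        (⟨y, hy'⟩ : Algebra.adjoin k ((A : Set F) ∪ G)) • (x - algebraMap k F a) +
          a • (y - algebraMap k F b) := by
      rw [Algebra.smul_def, Algebra.smul_def, map_mul]
      change _ = y * (x - algebraMap k F a) + algebraMap k F a * (y - algebraMap k F b)
      ring
    rw [e]
    refine Submodule.add_mem _ (Submodule.smul_mem _ _ ha) ?_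
    have h2 := Submodule.smul_mem _ (algebraMap k (Algebra.adjoin k ((A : Set F) ∪ G)) a) hb
    rwa [algebraMap_smul] at h2

/-- The maximal ideal of the localisation of `A[G]`. -/
theorem genBy_adjoin {A : Subalgebra k F} (hk : ∀ c : k, algebraMap k F c ∈ V)
    (hres : Res k V) (hA : Dom V A) {E : Set F}
    (hE : GenBy V A E) (G : Set F) (hG : ∀ g ∈ G, g ∈ V) (c : F → k)
    (hc : ∀ g ∈ G, V.valuation (g - algebraMap k F (c g)) < 1) :
    GenBy V (locV V (Algebra.adjoin k ((A : Set F) ∪ G)))
      (E ∪ (fun g => g - algebraMap k F (c g)) '' G) := by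
  set B := Algebra.adjoin k ((A : Set F) ∪ G) with hB
  have hAB : A ≤ B := fun a ha => Algebra.subset_adjoin (Or.inl ha)
  have hBV : ∀ b ∈ B, b ∈ V := by
    intro b hb
    induction hb using Algebra.adjoin_induction with
    | mem y hy =>
      rcases hy with hy | hy
      · exact hA.le y hy
      · exact hG y hy
    | algebraMap a => exact hk a
    | add x y _ _ hx hy => exact V.add_mem x y hx hy
    | mul x y _ _ hx hy => exact V.mul_mem x y hx hy
  have hEval : ∀ e ∈ E ∪ (fun g => g - algebraMap k F (c g)) '' G, V.valuation e < 1 := by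
    rintro e (he | ⟨g, hg, rfl⟩)
    · exact (hE.1 e he).2
    · exact hc g hg
  refine ⟨fun e he => ⟨?_, hEval e he⟩, ?_⟩
  · apply le_locV
    rcases he with he | ⟨g, hg, rfl⟩
    · exact hAB (hE.1 e he).1
    · exact B.sub_mem (Algebra.subset_adjoin (Or.inr hg)) (B.algebraMap_mem _)
  · rintro f ⟨a, ha, b, hb, hv, rfl⟩ hf
    rw [map_div₀, hv, div_one] at hf
    obtain ⟨r, hr⟩ := const_mod hres hA hE G c ha
    have h1 := span_val hBV hEval hr
    have h2 : V.valuation (algebraMap k F r) < 1 := by
      have e : algebraMap k F r = a - (a - algebraMap k F r) := by ring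
      rw [e]
      exact (V.valuation.map_sub _ _).trans_lt (max_lt hf h1)
    have h3 := const_val hk h2
    rw [h3, map_zero, sub_zero] at hr
    have h4 := span_mono_ring (le_locV (V := V) B) _ hr
    have h5 := Submodule.smul_mem _ (⟨b⁻¹, locV_inv (le_locV (V := V) B hb) hv⟩ :
      locV V B) h4
    have e : (⟨b⁻¹, locV_inv (le_locV (V := V) B hb) hv⟩ : locV V B) • a = a / b := by
      rw [Algebra.smul_def, div_eq_mul_inv, mul_comm]; rfl
    rwa [e] at h5

/-- `L(x)`: an element of `A[x]` is a constant plus something of positive value. -/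
theorem rep1 {A : Subalgebra k F} {x b : F} (hb : b ∈ Algebra.adjoin k ((A : Set F) ∪ {x})) :
    ∃ P : F[X], (∀ i, P.coeff i ∈ A) ∧ b = P.eval x := by
  obtain ⟨P, rfl⟩ := mem_adjoin_iff.1 hb
  exact ⟨P.map (algebraMap A F), fun i => by rw [coeff_map]; exact (P.coeff i).2,
    by rw [aeval_def, eval_map]⟩

theorem eval_divX (P : F[X]) (x : F) : P.eval x = x * P.divX.eval x + P.coeff 0 := by
  calc P.eval x = (P.divX * X + C (P.coeff 0)).eval x := by rw [divX_mul_X_add]
    _ = x * P.divX.eval x + P.coeff 0 := by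
      rw [eval_add, eval_mul, eval_X, eval_C, mul_comm]

theorem eval_sub_coeff {A : Subalgebra k F} (hA : ∀ a ∈ A, a ∈ V) {x : F}
    (hx : V.valuation x < 1) (P : F[X]) (hP : ∀ i, P.coeff i ∈ A) :
    V.valuation (P.eval x - P.coeff 0) < 1 := by
  have h1 : P.eval x - P.coeff 0 = x * P.divX.eval x := by
    rw [eval_divX P x]; ring
  have h2 : V.valuation (P.divX.eval x) ≤ 1 := by
    rw [eval_eq_sum_range]
    refine V.valuation.map_sum_le fun i _ => ?_
    rw [map_mul, map_pow, coeff_divX]
    have h3 := (V.valuation_le_one_iff _).2 (hA _ (hP (i + 1)))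
    exact mul_le_one' h3 (pow_le_one' hx.le _)
  rw [h1, map_mul]
  exact (mul_le_of_le_one_right' h2).trans_lt hx

theorem val_of_sub {a b : F} (ha : V.valuation a = 1) (h : V.valuation (a - b) < 1) :
    V.valuation b = 1 := by
  have e : b = a - (a - b) := by ring
  rw [e, Valuation.map_sub_eq_of_lt_left _ (by rw [ha]; exact h), ha]

theorem val_of_sub_lt {a b : F} (ha : V.valuation a < 1) (h : V.valuation (a - b) < 1) :
    V.valuation b < 1 := by
  have e : b = a - (a - b) := by ring
  rw [e]
  exact (V.valuation.map_sub _ _).trans_lt (max_lt ha h)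

/-- `R ∩ L = A` for `R = A[t]` localised, `t` of positive value. -/
theorem inter1 {L : IntermediateField k F} {A : Subalgebra k F} (hA : Dom V A)
    (hAL : ∀ a ∈ A, a ∈ L) {x : F} (h : Transcendental L x) (hx : V.valuation x < 1)
    {f : F} (hfL : f ∈ L) (hf : f ∈ locV V (Algebra.adjoin k ((A : Set F) ∪ {x}))) : f ∈ A := by
  obtain ⟨a, ha, b, hb, hv, hfab⟩ := hf
  obtain ⟨P, hP, rfl⟩ := rep1 ha
  obtain ⟨Q, hQ, rfl⟩ := rep1 hb
  have hb0 : Q.eval x ≠ 0 := by intro h0; rw [h0, map_zero] at hv; simp at hv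
  have h1 : C f * Q - P = 0 := by
    refine eval_inj h _ (fun i => ?_) ?_
    · rw [coeff_sub, coeff_C_mul]
      exact L.sub_mem (L.mul_mem hfL (hAL _ (hQ i))) (hAL _ (hP i))
    · rw [eval_sub, eval_mul, eval_C, hfab]; field_simp; ring
  have h2 : f * Q.coeff 0 = P.coeff 0 := by
    have := congrArg (fun R : F[X] => R.coeff 0) h1
    simp only [coeff_sub, coeff_C_mul, coeff_zero] at this
    exact sub_eq_zero.1 this
  have h3 := val_of_sub hv (eval_sub_coeff hA.le hx Q hQ)
  have h4 : Q.coeff 0 ≠ 0 := by intro h0; rw [h0, map_zero] at h3; simp at h3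
  have h5 : f = P.coeff 0 * (Q.coeff 0)⁻¹ := by rw [← h2]; field_simp
  rw [h5]
  exact A.mul_mem (hP 0) (hA.inv _ (hQ 0) h3)

theorem adjoin_sub_const {A : Subalgebra k F} {t : F} (c : k) :
    Algebra.adjoin k ((A : Set F) ∪ {t}) =
      Algebra.adjoin k ((A : Set F) ∪ {t - algebraMap k F c}) := by
  apply le_antisymm
  · refine Algebra.adjoin_le ?_
    rintro x (hx | rfl)
    · exact Algebra.subset_adjoin (Or.inl hx)
    · have h1 : x - algebraMap k F c ∈
          Algebra.adjoin k ((A : Set F) ∪ {x - algebraMap k F c}) := self_mem (by simp)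
      have h2 := Subalgebra.add_mem _ h1 (Subalgebra.algebraMap_mem _ c)
      simpa using h2
  · refine Algebra.adjoin_le ?_
    rintro x (hx | rfl)
    · exact Algebra.subset_adjoin (Or.inl hx)
    · have h1 : t ∈ Algebra.adjoin k ((A : Set F) ∪ {t}) := self_mem (by simp)
      exact Subalgebra.sub_mem _ h1 (Subalgebra.algebraMap_mem _ c)

/-- `R ∩ L = A` for `R = A[t]` localised, `t ∈ V`. -/
theorem inter1' {L : IntermediateField k F} {A : Subalgebra k F} (hres : Res k V) (hA : Dom V A)
    (hAL : ∀ a ∈ A, a ∈ L) {x : F} (h : Rat L x) (hx : x ∈ V)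
    {f : F} (hfL : f ∈ L) (hf : f ∈ locV V (Algebra.adjoin k ((A : Set F) ∪ {x}))) : f ∈ A := by
  obtain ⟨c, hc⟩ := hres x hx
  rw [adjoin_sub_const c] at hf
  exact inter1 hA hAL (h.sub (L.algebraMap_mem c)).tr hc hfL hf

/-- Elements of `A[x, y]`, `x y = d`. -/
theorem rep2 {A : Subalgebra k F} {x y d b : F} (hxy : x * y = d) (hd : d ∈ A)
    (hb : b ∈ Algebra.adjoin k ((A : Set F) ∪ {x, y})) :
    ∃ P Q : F[X], (∀ i, P.coeff i ∈ A) ∧ (∀ i, Q.coeff i ∈ A) ∧
      b = P.eval x + y * Q.eval y := by
  have key : ∀ c : F, (∃ P Q : F[X], (∀ i, P.coeff i ∈ A) ∧ (∀ i, Q.coeff i ∈ A) ∧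
      c = P.eval x + y * Q.eval y) → (∃ P Q : F[X], (∀ i, P.coeff i ∈ A) ∧
      (∀ i, Q.coeff i ∈ A) ∧ b * c = P.eval x + y * Q.eval y) := by
    induction hb using Algebra.adjoin_induction with
    | mem z hz =>
      rintro c ⟨P, Q, hP, hQ, rfl⟩
      rcases hz with hz | rfl | rfl
      · refine ⟨C z * P, C z * Q, fun i => ?_, fun i => ?_, ?_⟩
        · rw [coeff_C_mul]; exact A.mul_mem hz (hP i)
        · rw [coeff_C_mul]; exact A.mul_mem hz (hQ i)
        · simp only [eval_mul, eval_C]; ring
      · refine ⟨X * P + C (d * Q.coeff 0), C d * Q.divX, fun i => ?_, fun i => ?_, ?_⟩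
        · rw [coeff_add, coeff_C]
          refine A.add_mem ?_ ?_
          · cases i with
            | zero => simp
            | succ i => rw [coeff_X_mul]; exact hP i
          · split_ifs
            · exact A.mul_mem hd (hQ 0)
            · exact A.zero_mem
        · rw [coeff_C_mul, coeff_divX]; exact A.mul_mem hd (hQ _)
        · have e := eval_divX Q y
          simp only [eval_add, eval_mul, eval_X, eval_C]
          rw [e, ← hxy]; ring
      · refine ⟨C d * P.divX, X * Q + C (P.coeff 0), fun i => ?_, fun i => ?_, ?_⟩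
        · rw [coeff_C_mul, coeff_divX]; exact A.mul_mem hd (hP _)
        · rw [coeff_add, coeff_C]
          refine A.add_mem ?_ ?_
          · cases i with
            | zero => simp
            | succ i => rw [coeff_X_mul]; exact hQ i
          · split_ifs
            · exact hP 0
            · exact A.zero_mem
        · have e := eval_divX P x
          simp only [eval_add, eval_mul, eval_X, eval_C]
          rw [e, ← hxy]; ring
    | algebraMap r =>
      rintro c ⟨P, Q, hP, hQ, rfl⟩
      refine ⟨C (algebraMap k F r) * P, C (algebraMap k F r) * Q, fun i => ?_, fun i => ?_, ?_⟩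
      · rw [coeff_C_mul]; exact A.mul_mem (A.algebraMap_mem r) (hP i)
      · rw [coeff_C_mul]; exact A.mul_mem (A.algebraMap_mem r) (hQ i)
      · simp only [eval_mul, eval_C]; ring
    | add u v _ _ hu hv =>
      intro c hc
      obtain ⟨P, Q, hP, hQ, h1⟩ := hu c hc
      obtain ⟨P', Q', hP', hQ', h2⟩ := hv c hc
      refine ⟨P + P', Q + Q', fun i => ?_, fun i => ?_, ?_⟩
      · rw [coeff_add]; exact A.add_mem (hP i) (hP' i)
      · rw [coeff_add]; exact A.add_mem (hQ i) (hQ' i)
      · rw [add_mul, h1, h2, eval_add, eval_add]; ring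
    | mul u v _ _ hu hv =>
      intro c hc
      rw [mul_assoc]
      exact hu _ (hv c hc)
  have := key 1 ⟨1, 0, fun i => by rw [coeff_one]; split_ifs; exact A.one_mem; exact A.zero_mem,
    fun i => by rw [coeff_zero]; exact A.zero_mem, by simp⟩
  rwa [mul_one] at this

/-- Uniqueness of the representation. -/
theorem rep2_unique {L : IntermediateField k F} {x y d : F} (hxy : x * y = d) (hd : d ∈ L)
    (hd0 : d ≠ 0) (h : Rat L x) (P Q : F[X]) (hP : ∀ i, P.coeff i ∈ L) (hQ : ∀ i, Q.coeff i ∈ L)
    (h0 : P.eval x + y * Q.eval y = 0) : P = 0 ∧ Q = 0 := by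
  have hx : x ≠ 0 := by rintro rfl; exact hd0 (by rw [← hxy, zero_mul])
  have hy : y = d / x := by rw [← hxy]; field_simp
  have hy0 : y ≠ 0 := by rw [hy]; exact div_ne_zero hd0 hx
  have hyR : Rat L y := by
    have := h.inv.mul hd hd0
    rwa [mul_comm, ← div_eq_mul_inv, ← hy] at this
  set K := Q.natDegree + 1 with hK
  set S : F[X] := ∑ j ∈ Finset.range K, C (Q.coeff j * d ^ (j + 1)) * X ^ (K - (j + 1)) with hS
  have hSe : S.eval x = x ^ K * (y * Q.eval y) := by
    rw [hS, eval_finsetSum, eval_eq_sum_range, Finset.mul_sum, Finset.mul_sum]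
    refine Finset.sum_congr rfl fun j hj => ?_
    have hj' : j + 1 ≤ K := by have := Finset.mem_range.1 hj; omega
    rw [eval_mul, eval_C, eval_pow, eval_X, hy, div_pow]
    have e : x ^ K = x ^ (K - (j + 1)) * x ^ (j + 1) := by rw [← pow_add, Nat.sub_add_cancel hj']
    rw [e]
    have hxj : x ^ j ≠ 0 := pow_ne_zero _ hx
    field_simp
    ring
  have hid : P * X ^ K + S = 0 := by
    refine eval_inj h.tr _ (fun i => ?_) ?_
    · rw [coeff_add, coeff_mul_X_pow', hS, finsetSum_coeff]
      refine L.add_mem ?_ ?_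
      · split_ifs
        · exact hP _
        · exact L.zero_mem
      · refine sum_mem fun j _ => ?_
        rw [coeff_C_mul, coeff_X_pow]
        split_ifs
        · rw [mul_one]; exact L.mul_mem (hQ j) (pow_mem hd _)
        · rw [mul_zero]; exact L.zero_mem
    · rw [eval_add, eval_mul, eval_pow, eval_X, hSe]
      have e : P.eval x * x ^ K + x ^ K * (y * Q.eval y) =
        x ^ K * (P.eval x + y * Q.eval y) := by ring
      rw [e, h0, mul_zero]
  have hP0 : P = 0 := by
    ext i
    have h1 := congrArg (fun R : F[X] => R.coeff (i + K)) hid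
    simp only [coeff_add, coeff_mul_X_pow, coeff_zero] at h1
    have h2 : S.coeff (i + K) = 0 := by
      rw [hS, finsetSum_coeff]
      refine Finset.sum_eq_zero fun j hj => ?_
      rw [coeff_C_mul, coeff_X_pow, if_neg (by omega), mul_zero]
    rw [h2, add_zero] at h1
    rw [h1, coeff_zero]
  refine ⟨hP0, ?_⟩
  rw [hP0, eval_zero, zero_add] at h0
  exact eval_inj hyR.tr Q hQ ((mul_eq_zero.1 h0).resolve_left hy0)

/-- `R ∩ L = A` for `R = A[x, y]` localised, `x y = d`, `x` and `y` of positive value. -/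
theorem inter2 {L : IntermediateField k F} {A : Subalgebra k F} (hA : Dom V A)
    (hAL : ∀ a ∈ A, a ∈ L) {x y d : F} (hxy : x * y = d) (hd : d ∈ A) (hd0 : d ≠ 0)
    (h : Rat L x) (hx : V.valuation x < 1) (hy : V.valuation y < 1)
    {f : F} (hfL : f ∈ L) (hf : f ∈ locV V (Algebra.adjoin k ((A : Set F) ∪ {x, y}))) :
    f ∈ A := by
  obtain ⟨a, ha, b, hb, hv, hfab⟩ := hf
  obtain ⟨P, Q, hP, hQ, rfl⟩ := rep2 hxy hd ha
  obtain ⟨P', Q', hP', hQ', rfl⟩ := rep2 hxy hd hb
  have hb0 : P'.eval x + y * Q'.eval y ≠ 0 := by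
    intro h0; rw [h0, map_zero] at hv; simp at hv
  have h1 := rep2_unique hxy (hAL d hd) hd0 h (C f * P' - P) (C f * Q' - Q)
    (fun i => by
      rw [coeff_sub, coeff_C_mul]
      exact L.sub_mem (L.mul_mem hfL (hAL _ (hP' i))) (hAL _ (hP i)))
    (fun i => by
      rw [coeff_sub, coeff_C_mul]
      exact L.sub_mem (L.mul_mem hfL (hAL _ (hQ' i))) (hAL _ (hQ i)))
    (by
      have e : f * (P'.eval x + y * Q'.eval y) = P.eval x + y * Q.eval y := by
        rw [hfab]; field_simp
      simp only [eval_sub, eval_mul, eval_C]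
      linear_combination e)
  have h2 : f * P'.coeff 0 = P.coeff 0 := by
    have := congrArg (fun R : F[X] => R.coeff 0) h1.1
    simp only [coeff_sub, coeff_C_mul, coeff_zero] at this
    exact sub_eq_zero.1 this
  have h3 : V.valuation (P'.coeff 0) = 1 := by
    apply val_of_sub hv
    have e : P'.eval x + y * Q'.eval y - P'.coeff 0 =
        (P'.eval x - P'.coeff 0) + y * Q'.eval y := by ring
    rw [e]
    refine (V.valuation.map_add _ _).trans_lt (max_lt (eval_sub_coeff hA.le hx P' hP') ?_)
    have h4 : V.valuation (Q'.eval y) ≤ 1 := by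
      rw [eval_eq_sum_range]
      refine V.valuation.map_sum_le fun i _ => ?_
      rw [map_mul, map_pow]
      exact mul_le_one' ((V.valuation_le_one_iff _).2 (hA.le _ (hQ' i))) (pow_le_one' hy.le _)
    rw [map_mul]
    exact (mul_le_of_le_one_right' h4).trans_lt hy
  have h4 : P'.coeff 0 ≠ 0 := by intro h0; rw [h0, map_zero] at h3; simp at h3
  have h5 : f = P.coeff 0 * (P'.coeff 0)⁻¹ := by rw [← h2]; field_simp
  rw [h5]
  exact A.mul_mem (hP 0) (hA.inv _ (hP' 0) h3)

end Gen

end Pool.Agent.TGE
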