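import Pool.Agent.Lib.TGE_h70.Chart

/-!
# The projective line with finitely many comparable sections: normality of the charts
-/

set_option autoImplicit false

namespace Pool.Agent.TGE

open Pool.Agent.LU2 Polynomial

universe u

section Loc

variable {k F : Type u} [Field k] [Field F] [Algebra k F]

/-- `B` is integrally closed in `F`. -/
def IC (B : Subalgebra k F) : Prop := ∀ f : F, IsIntegral B f → f ∈ B

/-- A root in `F` of a monic polynomial with coefficients in `B`. -/
theorem isIntegral_of_coeffs (B : Subalgebra k F) (P : F[X]) (hP : P.Monic)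
    (hc : ∀ i, P.coeff i ∈ B) {f : F} (hf : P.eval f = 0) : IsIntegral B f := by
  have hl : P ∈ Polynomial.lifts (algebraMap B F) := by
    rw [Polynomial.lifts_iff_coeff_lifts]
    intro i
    exact ⟨⟨P.coeff i, hc i⟩, rfl⟩
  obtain ⟨Q, hQ, _, hQm⟩ := Polynomial.lifts_and_natDegree_eq_and_monic hl hP
  refine ⟨Q, hQm, ?_⟩
  rw [← Polynomial.eval_map, hQ, hf]

theorem coeffs_of_isIntegral (B : Subalgebra k F) {f : F} (hf : IsIntegral B f) :
    ∃ P : F[X], P.Monic ∧ (∀ i, P.coeff i ∈ B) ∧ P.eval f = 0 := by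
  obtain ⟨Q, hQm, hQ⟩ := hf
  refine ⟨Q.map (algebraMap B F), hQm.map _, fun i => ?_, ?_⟩
  · rw [coeff_map]; exact (Q.coeff i).2
  · rw [Polynomial.eval_map]; exact hQ

theorem isIntegral_mono {B C : Subalgebra k F} (h : B ≤ C) {f : F} (hf : IsIntegral B f) :
    IsIntegral C f := by
  obtain ⟨P, hP, hc, he⟩ := coeffs_of_isIntegral B hf
  exact isIntegral_of_coeffs C P hP (fun i => h (hc i)) he

/-- If `b a ∈ B` for all coefficients `a` of an integral equation for `f`, then `b f` is integral
over `B`. -/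
theorem isIntegral_scale (B : Subalgebra k F) (P : F[X]) (hP : P.Monic) {b : F} (hb : b ∈ B)
    (hc : ∀ i, b * P.coeff i ∈ B) {f : F} (hf : P.eval f = 0) : IsIntegral B (b * f) := by
  refine isIntegral_of_coeffs B (P.scaleRoots b) ?_ (fun i => ?_) ?_
  · exact (Polynomial.monic_scaleRoots_iff b).2 hP
  · rw [coeff_scaleRoots]
    rcases lt_trichotomy i P.natDegree with h | h | h
    · obtain ⟨j, hj⟩ := Nat.exists_eq_add_of_lt h
      have e : P.natDegree - i = j + 1 := by omega
      rw [e, pow_succ]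
      have e2 : P.coeff i * (b ^ j * b) = b ^ j * (b * P.coeff i) := by ring
      rw [e2]
      exact B.mul_mem (B.pow_mem hb _) (hc i)
    · rw [h, Nat.sub_self, pow_zero, mul_one, hP.coeff_natDegree]; exact B.one_mem
    · rw [coeff_eq_zero_of_natDegree_lt h, zero_mul]; exact B.zero_mem
  · have := Polynomial.scaleRoots_eval₂_eq_zero (p := P) (s := b) (r := f) (RingHom.id F)
      (by rw [Polynomial.eval₂_id]; exact hf)
    simpa [Polynomial.eval₂_id] using this

theorem common_den {V : ValuationSubring F} (B : Subalgebra k F) (P : F[X])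
    (hc : ∀ i, P.coeff i ∈ locV V B) :
    ∃ b ∈ B, V.valuation b = 1 ∧ ∀ i, b * P.coeff i ∈ B := by
  classical
  choose a ha b hb hv h using hc
  refine ⟨∏ i ∈ Finset.range (P.natDegree + 1), b i, B.prod_mem fun i _ => hb i, ?_, fun i => ?_⟩
  · rw [map_prod]; exact Finset.prod_eq_one fun i _ => hv i
  · rcases lt_or_ge i (P.natDegree + 1) with hi | hi
    · rw [← Finset.mul_prod_erase _ _ (Finset.mem_range.2 hi), h i]
      have hb0 : b i ≠ 0 := by intro h0; have := hv i; rw [h0, map_zero] at this; simp at this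
      have e : b i * (∏ j ∈ (Finset.range (P.natDegree + 1)).erase i, b j) * (a i / b i) =
          a i * ∏ j ∈ (Finset.range (P.natDegree + 1)).erase i, b j := by field_simp
      rw [e]
      exact B.mul_mem (ha i) (B.prod_mem fun j _ => hb j)
    · rw [coeff_eq_zero_of_natDegree_lt (by omega), mul_zero]; exact B.zero_mem

/-- The localisation of an integrally closed ring is integrally closed. -/
theorem ic_locV {V : ValuationSubring F} {B : Subalgebra k F} (hB : IC B) : IC (locV V B) := by
  intro f hf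
  obtain ⟨P, hP, hc, he⟩ := coeffs_of_isIntegral _ hf
  obtain ⟨b, hb, hv, hbc⟩ := common_den B P hc
  have h1 := hB _ (isIntegral_scale B P hP hb hbc he)
  have hb0 : b ≠ 0 := by rintro rfl; simp at hv
  exact ⟨b * f, h1, b, hb, hv, by field_simp⟩

end Loc

section Poly

variable {k F : Type u} [Field k] [Field F] [Algebra k F]

/-- `F` is the field of rational functions in `x` over the field `L`. -/
structure Rat (L : IntermediateField k F) (x : F) : Prop where
  tr : Transcendental L x
  gen : IntermediateField.adjoin L {x} = ⊤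

theorem Rat.sub {L : IntermediateField k F} {x : F} (h : Rat L x) {c : F} (hc : c ∈ L) :
    Rat L (x - c) := by
  constructor
  · intro ha
    apply h.tr
    have : IsAlgebraic L (algebraMap L F ⟨c, hc⟩) := isAlgebraic_algebraMap _
    have h2 := ha.add this
    simpa using h2
  · rw [eq_top_iff, ← h.gen, IntermediateField.adjoin_simple_le_iff]
    have h1 : x - c ∈ IntermediateField.adjoin L {x - c} :=
      IntermediateField.mem_adjoin_simple_self L _
    have h2 : c ∈ IntermediateField.adjoin L {x - c} :=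
      (IntermediateField.adjoin L {x - c}).algebraMap_mem ⟨c, hc⟩
    have h3 := (IntermediateField.adjoin L {x - c}).add_mem h1 h2
    simpa using h3

theorem Rat.mul {L : IntermediateField k F} {x : F} (h : Rat L x) {c : F} (hc : c ∈ L)
    (hc0 : c ≠ 0) : Rat L (x * c) := by
  constructor
  · intro ha
    apply h.tr
    have : IsAlgebraic L (algebraMap L F ⟨c, hc⟩⁻¹) := isAlgebraic_algebraMap _
    have h2 := ha.mul this
    have e : x * c * (algebraMap L F ⟨c, hc⟩⁻¹) = x := by
      rw [map_inv₀]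
      exact mul_inv_cancel_right₀ hc0 x
    rwa [e] at h2
  · rw [eq_top_iff, ← h.gen, IntermediateField.adjoin_simple_le_iff]
    have h1 : x * c ∈ IntermediateField.adjoin L {x * c} :=
      IntermediateField.mem_adjoin_simple_self L _
    have h2 : c ∈ IntermediateField.adjoin L {x * c} :=
      (IntermediateField.adjoin L {x * c}).algebraMap_mem ⟨c, hc⟩
    have h3 := (IntermediateField.adjoin L {x * c}).div_mem h1 h2
    rwa [mul_div_cancel_right₀ _ hc0] at h3

theorem Rat.inv {L : IntermediateField k F} {x : F} (h : Rat L x) : Rat L x⁻¹ := by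
  constructor
  · intro ha
    apply h.tr
    have := ha.inv
    rwa [inv_inv] at this
  · rw [eq_top_iff, ← h.gen, IntermediateField.adjoin_simple_le_iff]
    have h1 : x⁻¹ ∈ IntermediateField.adjoin L {x⁻¹} :=
      IntermediateField.mem_adjoin_simple_self L _
    have h3 := (IntermediateField.adjoin L {x⁻¹}).inv_mem h1
    rwa [inv_inv] at h3

/-- Every element of `F = L(x)` is a quotient of polynomials in `x`. -/
theorem Rat.quot {L : IntermediateField k F} {x : F} (h : Rat L x) (f : F) :
    ∃ P Q : L[X], aeval x Q ≠ 0 ∧ f = aeval x P / aeval x Q := by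
  have hf : f ∈ IntermediateField.adjoin L {x} := by rw [h.gen]; trivial
  rw [IntermediateField.mem_adjoin_simple_iff] at hf
  obtain ⟨P, Q, hPQ⟩ := hf
  by_cases hQ : aeval x Q = 0
  · refine ⟨0, 1, by simp, ?_⟩
    rw [hPQ, hQ]; simp
  · exact ⟨P, Q, hQ, hPQ⟩

/-- The ring `L[x]` is integrally closed in `F = L(x)`. -/
theorem Rat.poly {L : IntermediateField k F} {x : F} (h : Rat L x) {f : F} (G : L[X][X])
    (hG : G.Monic) (hf : G.eval₂ (aeval x : L[X] →ₐ[L] F).toRingHom f = 0) :
    ∃ P : L[X], f = aeval x P := by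
  obtain ⟨P, Q, hQ, hPQ⟩ := h.quot f
  have hQ0 : Q ≠ 0 := by rintro rfl; simp at hQ
  -- the map from the field of fractions
  have hinj : Function.Injective (aeval x : L[X] →ₐ[L] F) := transcendental_iff_injective.1 h.tr
  have hj : Function.Injective ((aeval x : L[X] →ₐ[L] F).toRingHom) := hinj
  let φ : FractionRing L[X] →+* F := IsFractionRing.lift (K := FractionRing L[X]) hj
  have hφ : ∀ R : L[X], φ (algebraMap _ _ R) = aeval x R := fun R =>
    IsFractionRing.lift_algebraMap (K := FractionRing L[X]) hj R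
  set q : FractionRing L[X] := algebraMap _ _ P / algebraMap _ _ Q with hq
  have hφq : φ q = f := by rw [hq, map_div₀, hφ, hφ, ← hPQ]
  have hint : IsIntegral L[X] q := by
    refine ⟨G, hG, ?_⟩
    apply φ.injective
    rw [map_zero, ← hf, Polynomial.hom_eval₂, hφq]
    congr 1
    ext R
    · simp [hφ]
    · simp [hφ]
  obtain ⟨R, hR⟩ := IsIntegrallyClosed.isIntegral_iff.1 hint
  exact ⟨R, by rw [← hφq, ← hR, hφ]⟩

/-- `A` is integrally closed and `L` is its field of fractions. -/
structure FracN (L : IntermediateField k F) (A : Subalgebra k F) : Prop where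
  le : ∀ a ∈ A, a ∈ L
  frac : ∀ a ∈ L, ∃ b ∈ A, ∃ c ∈ A, c ≠ 0 ∧ a = b / c
  ic : ∀ a ∈ L, IsIntegral A a → a ∈ A

attribute [local instance] Polynomial.algebra in
/-- An element of `F = L(x)` that is integral over `A[x]` is in `A[x]`. -/
theorem Rat.coeff {L : IntermediateField k F} {A : Subalgebra k F} (hA : FracN L A) {x : F}
    (h : Rat L x) {f : F} (G : A[X][X]) (hG : G.Monic)
    (hf : G.eval₂ (aeval x : A[X] →ₐ[A] F).toRingHom f = 0) :
    ∃ P : F[X], (∀ i, P.coeff i ∈ A) ∧ f = P.eval x := by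
  let ι : A →+* L :=
    { toFun := fun a => ⟨a, hA.le a a.2⟩
      map_one' := rfl
      map_mul' := fun _ _ => rfl
      map_zero' := rfl
      map_add' := fun _ _ => rfl }
  have hι : ∀ a : A, algebraMap L F (ι a) = a := fun _ => rfl
  have hcomp : ((aeval x : L[X] →ₐ[L] F).toRingHom).comp (mapRingHom ι) =
      (aeval x : A[X] →ₐ[A] F).toRingHom := by
    ext a
    · simp only [RingHom.coe_comp, Function.comp_apply, coe_mapRingHom, map_C,
        AlgHom.toRingHom_eq_coe, RingHom.coe_coe, aeval_C, hι]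
      rfl
    · simp
  obtain ⟨P, hP⟩ := h.poly (G.map (mapRingHom ι)) (hG.map _) (f := f) (by
    rw [eval₂_map, hcomp]; exact hf)
  have hinj : Function.Injective (aeval x : L[X] →ₐ[L] F) := transcendental_iff_injective.1 h.tr
  have h0 : (G.map (mapRingHom ι)).eval P = 0 := by
    apply hinj
    have e : (aeval x : L[X] →ₐ[L] F) ((G.map (mapRingHom ι)).eval P) =
        (G.map (mapRingHom ι)).eval₂ (aeval x : L[X] →ₐ[L] F).toRingHom (aeval x P) := by
      rw [← eval₂_id]
      exact Polynomial.hom_eval₂ _ (RingHom.id _) ((aeval x : L[X] →ₐ[L] F).toRingHom) P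
    rw [e, map_zero, ← hP, eval₂_map, hcomp]
    exact hf
  have hint : IsIntegral A[X] (P.map (algebraMap L F)) := by
    refine ⟨G, hG, ?_⟩
    have e2 : (mapRingHom (algebraMap L F)).comp (mapRingHom ι) = algebraMap A[X] F[X] := by
      ext a
      · simp only [RingHom.coe_comp, Function.comp_apply, coe_mapRingHom, map_C, hι]
        simp only [Polynomial.algebraMap_def, coe_mapRingHom, map_C]
        rfl
      · simp
    have e3 : (mapRingHom (algebraMap L F)) ((G.map (mapRingHom ι)).eval P) =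
        G.eval₂ (algebraMap A[X] F[X]) (P.map (algebraMap L F)) := by
      rw [← e2, ← eval₂_id, Polynomial.hom_eval₂, eval₂_map]
      rfl
    rw [← e3, h0, map_zero]
  refine ⟨P.map (algebraMap L F), fun i => ?_, ?_⟩
  · apply hA.ic
    · rw [coeff_map]; exact (P.coeff i).2
    · exact hint.coeff i
  · rw [hP, aeval_def, eval_map]

theorem eval_inj {L : IntermediateField k F} {x : F} (h : Transcendental L x) (R : F[X])
    (hc : ∀ i, R.coeff i ∈ L) (h0 : R.eval x = 0) : R = 0 := by
  have hl : R ∈ Polynomial.lifts (algebraMap L F) := by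
    rw [Polynomial.lifts_iff_coeff_lifts]
    intro i
    exact ⟨⟨R.coeff i, hc i⟩, rfl⟩
  obtain ⟨Q, hQ⟩ := hl
  have h1 : aeval x Q = 0 := by
    rw [← h0, ← hQ, aeval_def, coe_mapRingHom, eval_map]
  have h2 : Q = 0 := (transcendental_iff_injective.1 h) (by rw [h1, map_zero])
  rw [← hQ, h2]; simp

theorem self_mem {A : Subalgebra k F} {x : F} {T : Set F} (hx : x ∈ T) :
    x ∈ Algebra.adjoin k ((A : Set F) ∪ T) := Algebra.subset_adjoin (Or.inr hx)

theorem mem_adjoin_iff {A : Subalgebra k F} {x f : F} :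
    f ∈ Algebra.adjoin k ((A : Set F) ∪ {x}) ↔ ∃ P : A[X], f = aeval x P := by
  constructor
  · intro hf
    induction hf using Algebra.adjoin_induction with
    | mem y hy =>
      rcases hy with hy | rfl
      · exact ⟨C ⟨y, hy⟩, by simp⟩
      · exact ⟨X, by simp⟩
    | algebraMap c => exact ⟨C ⟨algebraMap k F c, A.algebraMap_mem c⟩, by simp⟩
    | add a b _ _ ha hb =>
      obtain ⟨P, hP⟩ := ha; obtain ⟨Q, hQ⟩ := hb
      exact ⟨P + Q, by rw [map_add, hP, hQ]⟩
    | mul a b _ _ ha hb =>
      obtain ⟨P, hP⟩ := ha; obtain ⟨Q, hQ⟩ := hb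
      exact ⟨P * Q, by rw [map_mul, hP, hQ]⟩
  · rintro ⟨P, rfl⟩
    rw [aeval_eq_sum_range]
    refine Subalgebra.sum_mem _ fun i _ => ?_
    rw [Algebra.smul_def]
    exact Subalgebra.mul_mem _ (Algebra.subset_adjoin (Or.inl (P.coeff i).2))
      (pow_mem (self_mem (Set.mem_singleton _)) _)

/-- `A[x]` is integrally closed in `L(x)`. -/
theorem ic_adjoin {L : IntermediateField k F} {A : Subalgebra k F} (hA : FracN L A) {x : F}
    (h : Rat L x) : IC (Algebra.adjoin k ((A : Set F) ∪ {x})) := by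
  intro f hf
  obtain ⟨P, hP, hc, he⟩ := coeffs_of_isIntegral _ hf
  have hl : P ∈ Polynomial.lifts (aeval x : A[X] →ₐ[A] F).toRingHom := by
    rw [Polynomial.lifts_iff_coeff_lifts]
    intro i
    obtain ⟨Q, hQ⟩ := mem_adjoin_iff.1 (hc i)
    exact ⟨Q, hQ.symm⟩
  obtain ⟨G, hG, _, hGm⟩ := Polynomial.lifts_and_natDegree_eq_and_monic hl hP
  obtain ⟨R, hR, hf'⟩ := h.coeff hA G hGm (f := f) (by rw [← eval_map, hG, he])
  rw [hf', eval_eq_sum_range]
  refine Subalgebra.sum_mem _ fun i _ => ?_
  exact Subalgebra.mul_mem _ (Algebra.subset_adjoin (Or.inl (hR i)))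
      (pow_mem (self_mem (Set.mem_singleton _)) _)

theorem pow_mul_mem {A : Subalgebra k F} {x d : F} (hx : x ≠ 0) (hd : d ∈ A) {b : F}
    (hb : b ∈ Algebra.adjoin k ((A : Set F) ∪ {x, d / x})) :
    ∃ N : ℕ, ∀ n, N ≤ n → x ^ n * b ∈ Algebra.adjoin k ((A : Set F) ∪ {x}) := by
  have hxm : x ∈ Algebra.adjoin k ((A : Set F) ∪ {x}) := Algebra.subset_adjoin (Or.inr rfl)
  have hxn : ∀ n, x ^ n ∈ Algebra.adjoin k ((A : Set F) ∪ {x}) := fun n =>
    Subalgebra.pow_mem _ hxm _
  induction hb using Algebra.adjoin_induction with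
  | mem y hy =>
    rcases hy with hy | rfl | rfl
    · exact ⟨0, fun n _ => Subalgebra.mul_mem _ (hxn n) (Algebra.subset_adjoin (Or.inl hy))⟩
    · exact ⟨0, fun n _ => Subalgebra.mul_mem _ (hxn n) hxm⟩
    · refine ⟨1, fun n hn => ?_⟩
      obtain ⟨m, rfl⟩ := Nat.exists_eq_add_of_le hn
      have e : x ^ (1 + m) * (d / x) = x ^ m * d := by
        rw [pow_add, pow_one]; field_simp
      rw [e]
      exact Subalgebra.mul_mem _ (hxn m) (Algebra.subset_adjoin (Or.inl hd))
  | algebraMap c => exact ⟨0, fun n _ => Subalgebra.mul_mem _ (hxn n) (Subalgebra.algebraMap_mem _ c)⟩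
  | add a b _ _ ha hb =>
    obtain ⟨N, hN⟩ := ha; obtain ⟨M, hM⟩ := hb
    refine ⟨max N M, fun n hn => ?_⟩
    rw [mul_add]
    exact Subalgebra.add_mem _ (hN n (le_of_max_le_left hn)) (hM n (le_of_max_le_right hn))
  | mul a b _ _ ha hb =>
    obtain ⟨N, hN⟩ := ha; obtain ⟨M, hM⟩ := hb
    refine ⟨N + M, fun n hn => ?_⟩
    obtain ⟨m, rfl⟩ := Nat.exists_eq_add_of_le hn
    have e : x ^ (N + M + m) * (a * b) = x ^ m * ((x ^ N * a) * (x ^ M * b)) := by ring
    rw [e]
    exact Subalgebra.mul_mem _ (hxn m) (Subalgebra.mul_mem _ (hN N le_rfl) (hM M le_rfl))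

/-- `x ^ N f ∈ A[x]` for `f` integral over `A[x, d / x]`. -/
theorem pow_mul_int {L : IntermediateField k F} {A : Subalgebra k F} (hA : FracN L A) {x d : F}
    (h : Rat L x) (hd : d ∈ A) {f : F}
    (hf : IsIntegral (Algebra.adjoin k ((A : Set F) ∪ {x, d / x})) f) :
    ∃ N : ℕ, x ^ N * f ∈ Algebra.adjoin k ((A : Set F) ∪ {x}) := by
  have hx : x ≠ 0 := by
    rintro rfl
    exact h.tr (isAlgebraic_zero)
  obtain ⟨P, hP, hc, he⟩ := coeffs_of_isIntegral _ hf
  choose N hN using fun i => pow_mul_mem hx hd (hc i)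
  set M := ∑ i ∈ Finset.range (P.natDegree + 1), N i with hM
  refine ⟨M, ic_adjoin hA h _ (isIntegral_scale _ P hP ?_ (fun i => ?_) he)⟩
  · exact pow_mem (self_mem (Set.mem_singleton _)) _
  · rcases lt_or_ge i (P.natDegree + 1) with hi | hi
    · exact hN i _ (Finset.single_le_sum (f := N) (fun _ _ => Nat.zero_le _)
        (Finset.mem_range.2 hi))
    · rw [coeff_eq_zero_of_natDegree_lt (by omega), mul_zero]; exact Subalgebra.zero_mem _

/-- `A[x, d / x]` is integrally closed in `L(x)`. -/
theorem ic_adjoin2 {L : IntermediateField k F} {A : Subalgebra k F} (hA : FracN L A) {x d : F}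
    (h : Rat L x) (hd : d ∈ A) (hd0 : d ≠ 0) :
    IC (Algebra.adjoin k ((A : Set F) ∪ {x, d / x})) := by
  intro f hf
  have hx : x ≠ 0 := by
    rintro rfl
    exact h.tr (isAlgebraic_zero)
  have hdL : d ∈ L := hA.le d hd
  -- `y = d / x`
  have hy : Rat L (d / x) := by
    have := h.inv.mul hdL hd0
    rwa [mul_comm, ← div_eq_mul_inv] at this
  have hdy : d / (d / x) = x := by field_simp
  obtain ⟨N, hN⟩ := pow_mul_int hA h hd hf
  obtain ⟨M, hM⟩ := pow_mul_int hA hy hd (f := f) (by
    rw [hdy, Set.pair_comm]; exact hf)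
  obtain ⟨P, hP⟩ := mem_adjoin_iff.1 hN
  obtain ⟨Q, hQ⟩ := mem_adjoin_iff.1 hM
  set K := Q.natDegree with hK
  have hdA : ∀ i : ℕ, d ^ i ∈ A := fun i => A.pow_mem hd i
  -- the polynomial identity
  set R1 : F[X] := P.map (algebraMap A F) * C (d ^ M) * X ^ K with hR1
  set S : F[X] := ∑ j ∈ Finset.range (K + 1), C ((Q.coeff j : F) * d ^ j) * X ^ (K - j) with hS
  set R2 : F[X] := S * X ^ (N + M) with hR2
  have hSc : ∀ l, S.coeff l ∈ A := by
    intro l
    rw [hS, finsetSum_coeff]
    refine Subalgebra.sum_mem _ fun j _ => ?_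
    rw [coeff_C_mul, coeff_X_pow]
    split_ifs
    · rw [mul_one]; exact A.mul_mem (Q.coeff j).2 (hdA j)
    · rw [mul_zero]; exact A.zero_mem
  have hPe : (P.map (algebraMap A F)).eval x = x ^ N * f := by
    rw [hP, aeval_def, eval_map]
  have hSe : S.eval x = x ^ K * ((d / x) ^ M * f) := by
    rw [hQ, aeval_eq_sum_range, hS, eval_finsetSum, Finset.mul_sum]
    refine Finset.sum_congr rfl fun j hj => ?_
    have hj' : j ≤ K := by simpa [Nat.lt_succ_iff] using hj
    rw [eval_mul, eval_C, eval_pow, eval_X, Algebra.smul_def, div_pow]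
    have e : x ^ K = x ^ (K - j) * x ^ j := by rw [← pow_add, Nat.sub_add_cancel hj']
    rw [e]
    have hxj : x ^ j ≠ 0 := pow_ne_zero _ hx
    change (Q.coeff j : F) * d ^ j * x ^ (K - j) = x ^ (K - j) * x ^ j * ((Q.coeff j : F) * (d ^ j / x ^ j))
    field_simp
  have hEq : R1 = R2 := by
    rw [← sub_eq_zero]
    refine eval_inj h.tr _ (fun i => ?_) ?_
    · rw [coeff_sub]
      refine L.sub_mem (hA.le _ ?_) (hA.le _ ?_)
      · rw [hR1, coeff_mul_X_pow']
        split_ifs
        · rw [coeff_mul_C, coeff_map]; exact A.mul_mem (P.coeff _).2 (hdA M)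
        · exact A.zero_mem
      · rw [hR2, coeff_mul_X_pow']
        split_ifs
        · exact hSc _
        · exact A.zero_mem
    · rw [eval_sub, hR1, hR2, eval_mul, eval_mul, eval_C, eval_pow, eval_X, hPe, eval_mul, hSe,
        eval_pow, eval_X, div_pow]
      have hxM : x ^ M ≠ 0 := pow_ne_zero _ hx
      field_simp
      ring
  have hcoef : ∀ i ≤ N, (P.coeff i : F) * d ^ M = (Q.coeff (N + M - i) : F) * d ^ (N + M - i) := by
    intro i hi
    have h1 : R1.coeff (i + K) = (P.coeff i : F) * d ^ M := by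
      rw [hR1, coeff_mul_X_pow, coeff_mul_C, coeff_map]; rfl
    rw [← h1, hEq, hR2, coeff_mul_X_pow']
    split_ifs with hle
    · rw [hS, finsetSum_coeff]
      rw [Finset.sum_eq_single (N + M - i)]
      · rw [coeff_C_mul, coeff_X_pow, if_pos (by omega), mul_one]
      · intro j hj hne
        have hj' : j ≤ K := by simpa [Nat.lt_succ_iff] using hj
        rw [coeff_C_mul, coeff_X_pow, if_neg (by omega), mul_zero]
      · intro hnot
        exact absurd (Finset.mem_range.2 (by omega)) hnot
    · rw [coeff_eq_zero_of_natDegree_lt (by omega : Q.natDegree < N + M - i)]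
      simp
  have hxB : x ∈ Algebra.adjoin k ((A : Set F) ∪ {x, d / x}) := self_mem (by simp)
  have hyB : d / x ∈ Algebra.adjoin k ((A : Set F) ∪ {x, d / x}) := self_mem (by simp)
  have hmem : ∀ i, (P.coeff i : F) * x ^ i / x ^ N ∈
      Algebra.adjoin k ((A : Set F) ∪ {x, d / x}) := by
    intro i
    rcases le_or_gt N i with hi | hi
    · obtain ⟨m, rfl⟩ := Nat.exists_eq_add_of_le hi
      have e : (P.coeff (N + m) : F) * x ^ (N + m) / x ^ N = P.coeff (N + m) * x ^ m := by
        rw [pow_add]; field_simp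
      rw [e]
      exact Subalgebra.mul_mem _ (Algebra.subset_adjoin (Or.inl (P.coeff _).2))
        (pow_mem hxB _)
    · obtain ⟨m, rfl⟩ := Nat.exists_eq_add_of_lt hi
      have h1 := hcoef i (by omega)
      have e1 : i + m + 1 + M - i = m + 1 + M := by omega
      rw [e1, pow_add d (m + 1) M] at h1
      have hdM : d ^ M ≠ 0 := pow_ne_zero _ hd0
      have h2 : (P.coeff i : F) = (Q.coeff (m + 1 + M) : F) * d ^ (m + 1) := by
        apply mul_right_cancel₀ hdM
        rw [h1]; ring
      have e : (P.coeff i : F) * x ^ i / x ^ (i + m + 1) =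
          (Q.coeff (m + 1 + M) : F) * (d / x) ^ (m + 1) := by
        rw [h2, div_pow]
        have : x ^ (i + m + 1) = x ^ i * x ^ (m + 1) := by rw [← pow_add]; ring_nf
        rw [this]
        have hxi : x ^ i ≠ 0 := pow_ne_zero _ hx
        have hxm : x ^ (m + 1) ≠ 0 := pow_ne_zero _ hx
        field_simp
      rw [e]
      exact Subalgebra.mul_mem _ (Algebra.subset_adjoin (Or.inl (Q.coeff _).2))
        (pow_mem hyB _)
  have hfin : f = ∑ i ∈ Finset.range (P.natDegree + 1), (P.coeff i : F) * x ^ i / x ^ N := by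
    rw [← Finset.sum_div]
    have hxN : x ^ N ≠ 0 := pow_ne_zero _ hx
    rw [eq_div_iff hxN, mul_comm, hP, aeval_eq_sum_range]
    refine Finset.sum_congr rfl fun i _ => ?_
    rw [Algebra.smul_def]; rfl
  rw [hfin]
  exact Subalgebra.sum_mem _ fun i _ => hmem i

end Poly

end Pool.Agent.TGE
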